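import Mathlib
import Pool.Agent.H16.King

set_option autoImplicit false

namespace Pool.Agent.Results.MP_407208_co.No

open H16.King

theorem result : ¬ ∀ (n : ℕ), 4 ≤ n → ∀ (k : ℕ), 2 ≤ k → ∀ β : Board n,
    ∃ c d, CornerSide c d ∧ ∀ γ : Board n, ¬ Equivalent β γ →
      (Words β k ∩ Words γ k).ncard ≤ (Words β k ∩ Words (swapCells β c d) k).ncard := by
  intro h
  obtain ⟨β, γ, h1, h2⟩ := H16.King.main
  obtain ⟨c, d, h3, h4⟩ := h 4 le_rfl 16 (by norm_num) β
  exact absurd (h4 γ h1) (not_le.2 (h2 c d h3))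

end Pool.Agent.Results.MP_407208_co.No
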